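import Pool.Agent.V5helper73.SZ.Stm

set_option autoImplicit false
open Complex Metric Set Filter Topology MeasureTheory

namespace V5helper21.SZ

open V5helper73.SZ

/-- the optimization over `lam` -/
theorem scal {L x q : ℝ} (hx : 0 < x) (hL0 : 0 < L)
    (hall : ∀ lam : ℝ, 0 < lam → 2 * x ≤ lam * (L - q) + (L + q) / lam) :
    x ≤ L ∧ q ≤ Real.sqrt (L ^ 2 - x ^ 2) := by
  have hxL : x ≤ L := by
    have := hall 1 one_pos
    rw [div_one] at this
    linarith
  refine ⟨hxL, ?_⟩
  have hqL : q < L := by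
    by_contra hcon
    push Not at hcon
    have hLq : 0 < L + q := by linarith
    have h2 := hall ((L + q) / x) (div_pos hLq hx)
    have h3 : (L + q) / ((L + q) / x) = x := by
      have : L + q ≠ 0 := by linarith
      field_simp
    rw [h3] at h2
    have h4 : (L + q) / x * (L - q) ≤ 0 := mul_nonpos_of_nonneg_of_nonpos (div_pos hLq hx).le (by linarith)
    linarith
  by_contra hcon
  push Not at hcon
  have hsq := Real.sqrt_nonneg (L ^ 2 - x ^ 2)
  have hq0' : 0 < q := by linarith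
  have h6 : L ^ 2 - x ^ 2 < q ^ 2 := by
    have := Real.sqrt_lt' hq0' |>.1 hcon
    exact this
  have hp1 : 0 < L + q := by linarith
  have hp2 : 0 < L - q := by linarith
  have h7 := hall (Real.sqrt ((L + q) / (L - q))) (by positivity)
  have h8 : Real.sqrt ((L + q) / (L - q)) * (L - q) = Real.sqrt (L + q) * Real.sqrt (L - q) := by
    rw [Real.sqrt_div hp1.le]
    have := Real.mul_self_sqrt hp2.le
    have h9 : Real.sqrt (L - q) ≠ 0 := by positivity
    calc Real.sqrt (L + q) / Real.sqrt (L - q) * (L - q) = Real.sqrt (L + q) / Real.sqrt (L - q) * (Real.sqrt (L - q) * Real.sqrt (L - q)) := by rw [this]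
      _ = _ := by field_simp
  have h9 : (L + q) / Real.sqrt ((L + q) / (L - q)) = Real.sqrt (L + q) * Real.sqrt (L - q) := by
    rw [Real.sqrt_div hp1.le]
    have := Real.mul_self_sqrt hp1.le
    have h9 : Real.sqrt (L + q) ≠ 0 := by positivity
    have h10 : Real.sqrt (L - q) ≠ 0 := by positivity
    calc (L + q) / (Real.sqrt (L + q) / Real.sqrt (L - q)) = (Real.sqrt (L + q) * Real.sqrt (L + q)) / (Real.sqrt (L + q) / Real.sqrt (L - q)) := by rw [this]
      _ = _ := by field_simp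
  rw [h8, h9] at h7
  have h10 : x ≤ Real.sqrt (L + q) * Real.sqrt (L - q) := by linarith
  have h11 : x ^ 2 ≤ (L + q) * (L - q) := by
    calc x ^ 2 ≤ (Real.sqrt (L + q) * Real.sqrt (L - q)) ^ 2 := by gcongr
      _ = _ := by rw [mul_pow, Real.sq_sqrt hp1.le, Real.sq_sqrt hp2.le]
  nlinarith

/-- `T k + √(L² - k²) ≤ √(1+T²) L` -/
theorem cs {T L x : ℝ} (hxL : x ≤ L) (hx : 0 ≤ x) :
    T * x + Real.sqrt (L ^ 2 - x ^ 2) ≤ Real.sqrt (1 + T ^ 2) * L := by
  have h0 : 0 ≤ L ^ 2 - x ^ 2 := by nlinarith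
  set s := Real.sqrt (L ^ 2 - x ^ 2) with hs
  have hs2 : s ^ 2 = L ^ 2 - x ^ 2 := Real.sq_sqrt h0
  have hL : 0 ≤ L := hx.trans hxL
  have h1 : Real.sqrt (1 + T ^ 2) * L = Real.sqrt ((1 + T ^ 2) * L ^ 2) := by
    rw [Real.sqrt_mul (by positivity), Real.sqrt_sq hL]
  rw [h1]
  apply Real.le_sqrt_of_sq_le
  nlinarith [sq_nonneg (T * s - x)]

theorem t_CNT : S_CNT := by
  intro C T hC hT
  refine ⟨Real.exp (T + C), (Real.exp_pos _).le, ?_⟩
  intro P h L hL hyp
  -- counting
  have hcount : ∀ x : ℝ, 0 < x → ∀ Q ⊆ P, (∀ j ∈ Q, x ≤ (h j).re) → Q.Nonempty →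
      x ≤ L ∧ (Q.card : ℝ) ≤ Real.exp (C + Real.sqrt (L ^ 2 - x ^ 2)) := by
    intro x hx Q hQ hQx hne
    obtain ⟨y, hy, hS⟩ := hyp Q hQ hne
    have hn : 0 < Q.card := Finset.card_pos.2 hne
    have hnR : (0:ℝ) < Q.card := by exact_mod_cast hn
    set n : ℝ := (Q.card : ℝ) with hnd
    set q : ℝ := y / n with hq
    have hyq : y = n * q := by rw [hq]; field_simp
    have hqk : Real.log n - C ≤ q := by
      rw [hq, le_div_iff₀ hnR]
      linarith
    have hsum : n * x ≤ ‖∑ j ∈ Q, h j‖ := by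
      calc n * x = ∑ _j ∈ Q, x := by simp [hnd]
        _ ≤ ∑ j ∈ Q, (h j).re := Finset.sum_le_sum hQx
        _ = (∑ j ∈ Q, h j).re := by rw [Complex.re_sum]
        _ ≤ _ := Complex.re_le_norm _
    have hall : ∀ lam : ℝ, 0 < lam → 2 * x ≤ lam * (L - q) + (L + q) / lam := by
      intro lam hlam
      have h2 := hsum.trans (hS lam hlam)
      rw [hyq] at h2
      have e : (lam * (n * L - n * q) + (n * L + n * q) / lam) / 2 = n * ((lam * (L - q) + (L + q) / lam) / 2) := by
        field_simp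
      rw [e] at h2
      have := le_of_mul_le_mul_left h2 hnR
      linarith
    obtain ⟨h1, h2⟩ := scal hx hL hall
    refine ⟨h1, ?_⟩
    rw [← Real.log_le_iff_le_exp hnR]
    linarith
  -- the bound for one term
  set N : ℕ := ⌊L⌋₊ with hN
  have hterm : ∀ j ∈ P, Real.exp (T * (h j).re) ≤ Real.exp T +
      ∑ k ∈ Finset.Icc 1 N, if (k : ℝ) ≤ (h j).re then Real.exp (T * (k + 1)) else 0 := by
    intro j hj
    have hnn : ∀ k ∈ Finset.Icc 1 N, (0:ℝ) ≤ if (k : ℝ) ≤ (h j).re then Real.exp (T * (k + 1)) else 0 := by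
      intro k _
      split_ifs
      · positivity
      · exact le_rfl
    rcases lt_or_ge (h j).re 1 with hlt | hge
    · have : Real.exp (T * (h j).re) ≤ Real.exp T := Real.exp_le_exp.2 (by nlinarith)
      have h3 := Finset.sum_nonneg hnn
      linarith
    · have hjL : (h j).re ≤ L := by
        refine (hcount (h j).re (by linarith) {j} (by simpa using hj) ?_ ⟨j, by simp⟩).1
        intro i hi
        rw [Finset.mem_singleton] at hi
        rw [hi]
      set k : ℕ := ⌊(h j).re⌋₊ with hk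
      have hk1 : 1 ≤ k := by
        rw [hk]
        exact Nat.le_floor (by simpa using hge)
      have hkN : k ≤ N := Nat.floor_le_floor hjL
      have hk2 : (k : ℝ) ≤ (h j).re := Nat.floor_le (by linarith)
      have hk3 : (h j).re ≤ k + 1 := (Nat.lt_floor_add_one _).le
      have h4 : Real.exp (T * (h j).re) ≤ Real.exp (T * (k + 1)) := Real.exp_le_exp.2 (by nlinarith)
      have h5 := Finset.single_le_sum hnn (Finset.mem_Icc.2 ⟨hk1, hkN⟩)
      rw [if_pos hk2] at h5
      have := Real.exp_pos T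
      linarith
  have hmain : ∑ j ∈ P, Real.exp (T * (h j).re) ≤ P.card * Real.exp T +
      ∑ k ∈ Finset.Icc 1 N, ((P.filter fun j => (k : ℝ) ≤ (h j).re).card : ℝ) * Real.exp (T * (k + 1)) := by
    refine (Finset.sum_le_sum hterm).trans (le_of_eq ?_)
    rw [Finset.sum_add_distrib, Finset.sum_const, nsmul_eq_mul, Finset.sum_comm]
    congr 1
    refine Finset.sum_congr rfl fun k _ => ?_
    rw [← Finset.sum_filter, Finset.sum_const, nsmul_eq_mul]
  have hk : ∀ k ∈ Finset.Icc 1 N, ((P.filter fun j => (k : ℝ) ≤ (h j).re).card : ℝ) * Real.exp (T * (k + 1)) ≤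
      Real.exp (T + C) * Real.exp (Real.sqrt (1 + T ^ 2) * L) := by
    intro k hk
    rw [Finset.mem_Icc] at hk
    have hk0 : (0:ℝ) < k := by exact_mod_cast hk.1
    rcases Finset.eq_empty_or_nonempty (P.filter fun j => (k : ℝ) ≤ (h j).re) with he | hne
    · rw [he]
      simp
      positivity
    · obtain ⟨h1, h2⟩ := hcount k hk0 _ (Finset.filter_subset _ P) (fun j hj => (Finset.mem_filter.1 hj).2) hne
      calc _ ≤ Real.exp (C + Real.sqrt (L ^ 2 - (k:ℝ) ^ 2)) * Real.exp (T * (k + 1)) := by gcongr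
        _ = Real.exp (T + C) * Real.exp (T * k + Real.sqrt (L ^ 2 - (k:ℝ) ^ 2)) := by
          rw [← Real.exp_add, ← Real.exp_add]
          congr 1
          ring
        _ ≤ _ := by
          gcongr
          exact cs h1 hk0.le
  refine hmain.trans ?_
  have h1 : ∑ k ∈ Finset.Icc 1 N, ((P.filter fun j => (k : ℝ) ≤ (h j).re).card : ℝ) * Real.exp (T * (k + 1)) ≤
      N * (Real.exp (T + C) * Real.exp (Real.sqrt (1 + T ^ 2) * L)) := by
    refine (Finset.sum_le_sum hk).trans (le_of_eq ?_)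
    simp
  have h2 : (N : ℝ) ≤ 1 + L := by
    have := Nat.floor_le hL.le
    linarith
  have h3 : Real.exp T ≤ Real.exp (T + C) := Real.exp_le_exp.2 (by linarith)
  have h4 : (N : ℝ) * (Real.exp (T + C) * Real.exp (Real.sqrt (1 + T ^ 2) * L)) ≤
      (1 + L) * (Real.exp (T + C) * Real.exp (Real.sqrt (1 + T ^ 2) * L)) := by gcongr
  have h5 : (P.card : ℝ) * Real.exp T ≤ P.card * Real.exp (T + C) := by gcongr
  calc _ ≤ (P.card : ℝ) * Real.exp (T + C) + (1 + L) * (Real.exp (T + C) * Real.exp (Real.sqrt (1 + T ^ 2) * L)) := by linarith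
    _ = _ := by ring

end V5helper21.SZ
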