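import Pool.Agent.V5helper21.SZ.CL1A
import Pool.Agent.V5helper73.SZ.StmB

set_option autoImplicit false
open Complex Metric Set Filter Topology MeasureTheory

namespace V5helper21.SZ

open V5helper73.SZ
open V5helper73.GC (yy t_CHAR)
open Pool.Agent.W677.Mar (Sg)

/-- the hypothesis of CNT for one part -/
theorem part_hyp {CH : ℝ}
    (hH : ∀ k m i : ℕ, k < m → ∀ (n : ℕ) (σ : Fin n → ℕ), StrictMono σ →
      (∀ t, σ t < 2 ^ m ∧ σ t / 2 ^ (m - k) = i) → (∀ t t', 8 * σ t' ≤ 8 * σ t + 2 ^ m) →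
      (n : ℝ) * (Real.log n - CH) ≤ yb (fun t => bm (pt k i) (pt m (σ t))))
    {Y H : ℂ → ℂ} (S : Sg Y H) {k m i : ℕ} (hkm : k < m) {L : ℝ} (Q : Finset ℕ)
    (hQ : ∀ j ∈ Q, j < 2 ^ m ∧ j / 2 ^ (m - k) = i) (hQ8 : ∀ j ∈ Q, ∀ j' ∈ Q, 8 * j' ≤ 8 * j + 2 ^ m)
    (hb : ∀ j ∈ Q, bm (pt k i) (pt m j) ∈ ball (0:ℂ) 1 ∧ bm (pt k i) (pt m j) ≠ 0 ∧
      -Real.log (1 - ‖bm (pt k i) (pt m j)‖ ^ 2) ≤ L) :
    ∃ y : ℝ, (Q.card : ℝ) * (Real.log Q.card - CH) ≤ y ∧ ∀ lam : ℝ, 0 < lam →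
    ‖∑ j ∈ Q, H (bm (pt k i) (pt m j))‖ ≤ (lam * (Q.card * L - y) + (Q.card * L + y) / lam) / 2 := by
  set σ : Fin Q.card → ℕ := fun t => Q.orderEmbOfFin rfl t with hσ
  have hσm : ∀ t, σ t ∈ Q := fun t => Finset.orderEmbOfFin_mem Q rfl t
  have hσs : StrictMono σ := (Q.orderEmbOfFin rfl).strictMono
  refine ⟨yb (fun t => bm (pt k i) (pt m (σ t))), hH k m i hkm _ σ hσs (fun t => hQ _ (hσm t))
    (fun t t' => hQ8 _ (hσm t) _ (hσm t')), ?_⟩
  intro lam hlam
  have h1 := t_CHAR Y H S Q.card (fun t => bm (pt k i) (pt m (σ t))) (fun t => (hb _ (hσm t)).1)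
    (fun t => (hb _ (hσm t)).2.1) lam hlam
  have hsum : ∀ F : ℕ → ℂ, ∑ t, F (σ t) = ∑ j ∈ Q, F j := by
    intro F
    conv_rhs => rw [← Finset.map_orderEmbOfFin_univ Q rfl]
    rw [Finset.sum_map]
    rfl
  rw [hsum (fun j => H (bm (pt k i) (pt m j)))] at h1
  refine h1.trans ?_
  have hτ : (∑ t, -Real.log (1 - ‖bm (pt k i) (pt m (σ t))‖ ^ 2)) ≤ Q.card * L := by
    refine (Finset.sum_le_sum fun t _ => (hb _ (hσm t)).2.2).trans (le_of_eq ?_)
    simp
  have hyy : yy (fun t => bm (pt k i) (pt m (σ t))) = yb (fun t => bm (pt k i) (pt m (σ t))) := rfl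
  rw [hyy]
  gcongr

theorem t_CL1 (hKT : S_KT) (hTWO : S_TWO) (hGEO : S_GEO) (hCNT : S_CNT) (hHAR2 : S_HAR2)
    (hSB : V5helper73.GC.S_SB) : S_CL1 := by
  intro lam R hlam hR
  obtain ⟨CH, hCH0, hCH⟩ := hHAR2
  obtain ⟨K₁, hK₁, hcnt⟩ := hCNT CH lam hCH0 hlam.le
  obtain ⟨hG1, -, -, -⟩ := hGEO
  set S1 : ℝ := Real.sqrt (1 + lam ^ 2) with hS1
  have hS1lam : lam ≤ S1 := Real.le_sqrt_of_sq_le (by linarith)
  have hS11 : 1 ≤ S1 := Real.le_sqrt_of_sq_le (by nlinarith)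
  set KA : ℝ := 8 * (2 * 1600 ^ 3) ^ lam with hKA
  set KB : ℝ := (6 * R ^ 2) ^ lam * (8 * (K₁ + K₁ * (1 + Real.log 100) * 100 ^ S1)) with hKB
  have hlog100 : 0 ≤ Real.log 100 := Real.log_nonneg (by norm_num)
  have hKA0 : 0 ≤ KA := by positivity
  have hKB0 : 0 ≤ KB := by positivity
  refine ⟨KA + KB, by positivity, ?_⟩
  intro f hf hinj k m i hkm hi s hs
  have hball : ∀ k i, ‖pt k i‖ < 1 := fun k i => mem_ball_zero_iff.1 (hG1 k i).1
  obtain ⟨hg, hda, hrel⟩ := hKT f hf hinj (pt k i) (hG1 k i).1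
  set a := pt k i with ha
  set M : ℝ := (m : ℝ) - k with hM
  have hM0 : 0 ≤ M := by
    rw [hM, sub_nonneg]
    exact_mod_cast hkm
  have hMn : ((m - k : ℕ) : ℝ) = M := by rw [Nat.cast_sub hkm]
  have hpow : (2:ℝ) ^ (m - k) = 2 ^ M := by rw [← hMn, Real.rpow_natCast]
  have hbb : ∀ j ∈ s, (1 / 2 : ℝ) ^ (m - k) / 100 ≤ 1 - ‖bm a (pt m j)‖ ^ 2 ∧
      1 - ‖bm a (pt m j)‖ ^ 2 ≤ 4 * (1 / 2 : ℝ) ^ (m - k) := fun j hj =>
    bm_bounds hkm (hs j hj).2.1 (hball k i) (hball m j) (hG1 k i).2.1 (hG1 k i).2.2 (hG1 m j).2.1 (hG1 m j).2.2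
  have hddpos : ∀ j, 0 < dd f (pt m j) := fun j => (hKT f hf hinj (pt m j) (hG1 m j).1).2.1
  have h2S : (1:ℝ) ≤ 2 ^ (M * (S1 - lam)) := Real.one_le_rpow (by norm_num) (mul_nonneg hM0 (by linarith))
  have hcard := card_le hkm s (fun j hj => (hs j hj).2.1)
  rcases le_or_gt (m - k) 3 with h3 | h3
  · -- few terms
    have hterm : ∀ j ∈ s, (dd f (pt m j) / dd f a) ^ lam ≤ (2 * 1600 ^ 3) ^ lam := by
      intro j hj
      apply Real.rpow_le_rpow (div_pos (hddpos j) hda).le _ hlam.le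
      rw [div_le_iff₀ hda]
      have h1 := (hTWO f hf hinj a (hG1 k i).1 (pt m j) (hG1 m j).1).2.2.1
      have h2 := (hbb j hj).1
      have h4 : (1 / 2 : ℝ) ^ 3 ≤ (1 / 2 : ℝ) ^ (m - k) := pow_le_pow_of_le_one (by norm_num) (by norm_num) h3
      have h5 : ‖bm a (pt m j)‖ < 1 := mem_ball_zero_iff.1 (hrel _ (hG1 m j).1).1
      have h6 : 1 / 1600 ≤ 1 - ‖bm a (pt m j)‖ := by
        nlinarith [norm_nonneg (bm a (pt m j))]
      have h7 : (1 / 1600 : ℝ) ^ 3 ≤ (1 - ‖bm a (pt m j)‖) ^ 3 := by gcongr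
      have h8 : dd f (pt m j) * (1 / 1600 : ℝ) ^ 3 ≤ 2 * dd f a :=
        (mul_le_mul_of_nonneg_left h7 (hddpos j).le).trans h1
      linarith
    have hc8 : (s.card : ℝ) ≤ 8 := by
      refine hcard.trans ?_
      calc (2:ℝ) ^ (m - k) ≤ 2 ^ 3 := pow_le_pow_right₀ (by norm_num) h3
        _ = 8 := by norm_num
    calc ∑ j ∈ s, (dd f (pt m j) / dd f a) ^ lam ≤ ∑ _j ∈ s, (2 * 1600 ^ 3 : ℝ) ^ lam := Finset.sum_le_sum hterm
      _ = s.card * (2 * 1600 ^ 3 : ℝ) ^ lam := by simp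
      _ ≤ 8 * (2 * 1600 ^ 3 : ℝ) ^ lam := by gcongr
      _ = KA * 1 * 1 := by rw [hKA]; ring
      _ ≤ (KA + KB) * (1 + M) * 2 ^ (M * (S1 - lam)) := by
        gcongr
        · linarith
        · linarith
  · -- many terms
    have hkm' : k < m := by omega
    obtain ⟨Y, H, hSg, hYH⟩ := hSB _ hg.diff hg.inj hg.zero hg.one
    set L : ℝ := M * Real.log 2 + Real.log 100 with hL
    have hlog2 : 0 < Real.log 2 := Real.log_pos (by norm_num)
    have hlog2' : Real.log 2 ≤ 1 := by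
      have := Real.log_two_lt_d9
      linarith
    have hMpos : 4 ≤ M := by
      rw [← hMn]
      exact_mod_cast h3
    have hL0 : 0 < L := by positivity
    have h116 : (1 / 2 : ℝ) ^ (m - k) ≤ 1 / 16 := by
      calc (1 / 2 : ℝ) ^ (m - k) ≤ (1 / 2 : ℝ) ^ 4 := pow_le_pow_of_le_one (by norm_num) (by norm_num) h3
        _ = 1 / 16 := by norm_num
    have hξ : ∀ j ∈ s, bm a (pt m j) ∈ ball (0:ℂ) 1 ∧ bm a (pt m j) ≠ 0 ∧
        -Real.log (1 - ‖bm a (pt m j)‖ ^ 2) ≤ L := by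
      intro j hj
      refine ⟨(hrel _ (hG1 m j).1).1, ?_, ?_⟩
      · intro h0
        have := (hbb j hj).2
        rw [h0, norm_zero] at this
        norm_num at this
        have h16 := h116
        norm_num at h16
        linarith
      · have h1 := (hbb j hj).1
        have h2 : 0 < (1 / 2 : ℝ) ^ (m - k) / 100 := by positivity
        have h4 := Real.log_le_log h2 h1
        have h5 : Real.log ((1 / 2 : ℝ) ^ (m - k) / 100) = -L := by
          rw [Real.log_div (by positivity) (by norm_num), Real.log_pow, hMn, one_div, Real.log_inv, hL]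
          ring
        rw [h5] at h4
        linarith
    -- one term
    have hterm : ∀ j ∈ s, (dd f (pt m j) / dd f a) ^ lam ≤
        (6 * R ^ 2) ^ lam * 2 ^ (-(M * lam)) * Real.exp (lam * (H (bm a (pt m j))).re) := by
      intro j hj
      obtain ⟨hξb, hgξ, hdξ⟩ := hrel _ (hG1 m j).1
      set ξ := bm a (pt m j) with hξd
      have hξn : 3 / 4 ≤ ‖ξ‖ ^ 2 := by
        have := (hbb j hj).2
        linarith
      have hξ1 : ‖ξ‖ < 1 := mem_ball_zero_iff.1 hξb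
      have e1 : dd f (pt m j) / dd f a = ‖deriv (kt f a) ξ‖ * (1 - ‖ξ‖ ^ 2) := by
        rw [← hdξ]
        field_simp
      have hgR : ‖kt f a ξ‖ ≤ R := by
        have h1 := congrArg norm hgξ
        rw [norm_mul] at h1
        have h2 : ‖deriv f a * (1 - (‖a‖ : ℂ) ^ 2)‖ = dd f a := by
          unfold dd
          rw [norm_mul]
          congr 1
          have h4 : (1 - (‖a‖ : ℂ) ^ 2) = ((1 - ‖a‖ ^ 2 : ℝ) : ℂ) := by push_cast; ring
          rw [h4, Complex.norm_real, Real.norm_of_nonneg]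
          nlinarith [hball k i, norm_nonneg a]
        rw [h2] at h1
        have h4 := (hs j hj).2.2
        rw [← h1] at h4
        exact le_of_mul_le_mul_right h4 hda
      have h5 := hYH ξ hξb
      have h6 : ‖deriv (kt f a) ξ‖ * (1 - ‖ξ‖ ^ 2) ≤ 6 * R ^ 2 * (1 / 2 : ℝ) ^ (m - k) * Real.exp (H ξ).re := by
        have h7 : ‖deriv (kt f a) ξ‖ * (3 / 4) ≤ R ^ 2 * Real.exp (H ξ).re := by
          calc ‖deriv (kt f a) ξ‖ * (3 / 4) ≤ ‖deriv (kt f a) ξ‖ * ‖ξ‖ ^ 2 := by gcongr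
            _ = ‖kt f a ξ‖ ^ 2 * Real.exp (H ξ).re := h5
            _ ≤ _ := by gcongr
        have h8 := (hbb j hj).2
        have h9 : 0 ≤ 1 - ‖ξ‖ ^ 2 := by nlinarith [norm_nonneg ξ]
        calc ‖deriv (kt f a) ξ‖ * (1 - ‖ξ‖ ^ 2) ≤ (4 / 3 * (R ^ 2 * Real.exp (H ξ).re)) * (4 * (1 / 2 : ℝ) ^ (m - k)) := by
              apply mul_le_mul _ h8 h9 (by positivity)
              linarith
          _ = (16 / 3) * (R ^ 2 * (1 / 2 : ℝ) ^ (m - k) * Real.exp (H ξ).re) := by ring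
          _ ≤ 6 * (R ^ 2 * (1 / 2 : ℝ) ^ (m - k) * Real.exp (H ξ).re) := by
              gcongr
              norm_num
          _ = _ := by ring
      rw [e1]
      have h10 : 0 ≤ ‖deriv (kt f a) ξ‖ * (1 - ‖ξ‖ ^ 2) := by
        have : 0 ≤ 1 - ‖ξ‖ ^ 2 := by nlinarith [norm_nonneg ξ]
        positivity
      calc (‖deriv (kt f a) ξ‖ * (1 - ‖ξ‖ ^ 2)) ^ lam ≤ (6 * R ^ 2 * (1 / 2 : ℝ) ^ (m - k) * Real.exp (H ξ).re) ^ lam :=
            Real.rpow_le_rpow h10 h6 hlam.le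
        _ = (6 * R ^ 2) ^ lam * 2 ^ (-(M * lam)) * Real.exp (lam * (H ξ).re) := by
            rw [Real.mul_rpow (by positivity) (by positivity), Real.mul_rpow (by positivity) (by positivity)]
            congr 1
            · congr 1
              rw [one_div, inv_pow, hpow, ← Real.rpow_neg (by norm_num), ← Real.rpow_mul (by norm_num)]
              congr 1
              ring
            · rw [← Real.exp_mul]
              congr 1
              ring
    -- parts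
    set part : ℕ → Finset ℕ := fun q => s.filter (fun j => j / 2 ^ (m - 3) = q) with hpart
    have hm3 : 2 ^ m = 8 * 2 ^ (m - 3) := by
      have : m = 3 + (m - 3) := by omega
      conv_lhs => rw [this, pow_add]
      norm_num
    have hpartsum : ∀ F : ℕ → ℝ, ∑ j ∈ s, F j = ∑ q ∈ Finset.range 8, ∑ j ∈ part q, F j := by
      intro F
      rw [hpart]
      rw [Finset.sum_fiberwise_of_maps_to (g := fun j => j / 2 ^ (m - 3))]
      intro j hj
      rw [Finset.mem_range, Nat.div_lt_iff_lt_mul (by positivity), ← hm3]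
      exact (hs j hj).1
    have hpartb : ∀ q, ∑ j ∈ part q, Real.exp (lam * (H (bm a (pt m j))).re) ≤
        K₁ * 2 ^ (m - k) + K₁ * (1 + L) * Real.exp (S1 * L) := by
      intro q
      have h1 := hcnt (part q) (fun j => H (bm a (pt m j))) L hL0 ?_
      · refine h1.trans ?_
        have h2 : ((part q).card : ℝ) ≤ 2 ^ (m - k) := by
          refine le_trans ?_ hcard
          exact_mod_cast Finset.card_le_card (Finset.filter_subset _ _)
        gcongr
      · intro Q hQ hne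
        have hQs : ∀ j ∈ Q, j ∈ s := fun j hj => (Finset.mem_filter.1 (hQ hj)).1
        refine part_hyp hCH hSg hkm' Q (fun j hj => ⟨(hs j (hQs j hj)).1, (hs j (hQs j hj)).2.1⟩) ?_
          (fun j hj => hξ j (hQs j hj))
        intro j hj j' hj'
        have h5 := (Finset.mem_filter.1 (hQ hj)).2
        have h6 := (Finset.mem_filter.1 (hQ hj')).2
        have h7 := Nat.div_add_mod j (2 ^ (m - 3))
        have h8 := Nat.div_add_mod j' (2 ^ (m - 3))
        rw [h5] at h7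
        rw [h6] at h8
        have h9 := Nat.mod_lt j' (show 2 ^ (m - 3) > 0 by positivity)
        rw [hm3]
        have h10 := Nat.zero_le (j % 2 ^ (m - 3))
        linarith
    have hexpL : Real.exp (S1 * L) = 2 ^ (M * S1) * 100 ^ S1 := by
      rw [hL, Real.rpow_def_of_pos (by norm_num : (0:ℝ) < 2), Real.rpow_def_of_pos (by norm_num : (0:ℝ) < 100), ← Real.exp_add]
      congr 1
      ring
    have hall : ∑ j ∈ s, Real.exp (lam * (H (bm a (pt m j))).re) ≤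
        8 * (K₁ + K₁ * (1 + Real.log 100) * 100 ^ S1) * (1 + M) * 2 ^ (M * S1) := by
      rw [hpartsum]
      refine (Finset.sum_le_sum fun q _ => hpartb q).trans ?_
      rw [Finset.sum_const, Finset.card_range, nsmul_eq_mul, hexpL]
      have h1 : (2:ℝ) ^ (m - k) ≤ (1 + M) * 2 ^ (M * S1) := by
        rw [hpow]
        calc (2:ℝ) ^ M = 1 * 2 ^ (M * 1) := by rw [mul_one, one_mul]
          _ ≤ (1 + M) * 2 ^ (M * S1) := by
            gcongr
            · linarith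
            · norm_num
      have h2 : 1 + L ≤ (1 + Real.log 100) * (1 + M) := by
        rw [hL]
        nlinarith
      have h3 : (0:ℝ) ≤ 2 ^ (M * S1) := by positivity
      have h4 : (0:ℝ) ≤ 100 ^ S1 := by positivity
      calc ((8:ℕ):ℝ) * (K₁ * 2 ^ (m - k) + K₁ * (1 + L) * (2 ^ (M * S1) * 100 ^ S1))
          ≤ ((8:ℕ):ℝ) * (K₁ * ((1 + M) * 2 ^ (M * S1)) + K₁ * ((1 + Real.log 100) * (1 + M)) * (2 ^ (M * S1) * 100 ^ S1)) := by
            gcongr
        _ = _ := by push_cast; ring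
    calc ∑ j ∈ s, (dd f (pt m j) / dd f a) ^ lam
        ≤ ∑ j ∈ s, (6 * R ^ 2) ^ lam * 2 ^ (-(M * lam)) * Real.exp (lam * (H (bm a (pt m j))).re) := Finset.sum_le_sum hterm
      _ = (6 * R ^ 2) ^ lam * 2 ^ (-(M * lam)) * ∑ j ∈ s, Real.exp (lam * (H (bm a (pt m j))).re) := by
          rw [Finset.mul_sum]
      _ ≤ (6 * R ^ 2) ^ lam * 2 ^ (-(M * lam)) * (8 * (K₁ + K₁ * (1 + Real.log 100) * 100 ^ S1) * (1 + M) * 2 ^ (M * S1)) := by
          gcongr
      _ = KB * (1 + M) * (2 ^ (-(M * lam)) * 2 ^ (M * S1)) := by rw [hKB]; ring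
      _ = KB * (1 + M) * 2 ^ (M * (S1 - lam)) := by
          rw [← Real.rpow_add (by norm_num)]
          congr 2
          ring
      _ ≤ (KA + KB) * (1 + M) * 2 ^ (M * (S1 - lam)) := by
          gcongr
          linarith

end V5helper21.SZ
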