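import Pool.Agent.V5helper73.SZ.Stm

set_option autoImplicit false
open Complex Metric Set Filter Topology MeasureTheory

namespace V5helper21.SZ

open V5helper73.SZ

theorem one_sub_ne {a z : ℂ} (ha : ‖a‖ < 1) (hz : ‖z‖ < 1) : 1 - (starRingEnd ℂ) a * z ≠ 0 := by
  intro h
  have h1 : ‖(starRingEnd ℂ) a * z‖ = 1 := by
    have : (starRingEnd ℂ) a * z = 1 := by linear_combination -h
    rw [this]; simp
  rw [norm_mul, RCLike.norm_conj] at h1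
  nlinarith [norm_nonneg a, norm_nonneg z]

theorem bm_sq {a z : ℂ} (ha : ‖a‖ < 1) (hz : ‖z‖ < 1) :
    1 - ‖bm a z‖ ^ 2 = (1 - ‖a‖ ^ 2) * (1 - ‖z‖ ^ 2) / ‖1 - (starRingEnd ℂ) a * z‖ ^ 2 := by
  have h := one_sub_ne ha hz
  have hn : ‖1 - (starRingEnd ℂ) a * z‖ ^ 2 ≠ 0 := pow_ne_zero 2 (norm_ne_zero_iff.2 h)
  unfold bm
  rw [norm_div, div_pow, eq_div_iff hn, sub_mul, div_mul_cancel₀ _ hn, one_mul]
  simp only [Complex.sq_norm, Complex.normSq_apply, Complex.sub_re, Complex.sub_im, Complex.mul_re, Complex.mul_im,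
    Complex.conj_re, Complex.conj_im, Complex.one_re, Complex.one_im]
  ring

theorem pt_norm (k i : ℕ) : ‖pt k i‖ = 1 - (1 / 2 : ℝ) ^ k := by
  unfold pt
  rw [norm_mul, Complex.norm_exp_ofReal_mul_I, mul_one, Complex.norm_real, Real.norm_of_nonneg]
  have : (1 / 2 : ℝ) ^ k ≤ 1 := pow_le_one₀ (by norm_num) (by norm_num)
  linarith

theorem div_bounds {k m i j : ℕ} (hkm : k ≤ m) (hj : j / 2 ^ (m - k) = i) :
    i * 2 ^ (m - k) ≤ j ∧ j < (i + 1) * 2 ^ (m - k) := by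
  have h := Nat.div_add_mod j (2 ^ (m - k))
  rw [hj] at h
  have h2 := Nat.mod_lt j (show 2 ^ (m - k) > 0 by positivity)
  rw [mul_comm] at h
  constructor
  · exact le_of_le_of_eq (Nat.le_add_right _ _) h
  · rw [add_mul, one_mul]
    exact lt_of_eq_of_lt h.symm (Nat.add_lt_add_left h2 _)

/-- the distance of `conj a * z` from `1` -/
theorem near {k m i j : ℕ} (hkm : k ≤ m) (hj : j / 2 ^ (m - k) = i) :
    ‖1 - (starRingEnd ℂ) (pt k i) * pt m j‖ ≤ 10 * (1 / 2 : ℝ) ^ k := by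
  obtain ⟨h1, h2⟩ := div_bounds hkm hj
  set φ : ℝ := 2 * Real.pi * j / 2 ^ m - 2 * Real.pi * i / 2 ^ k with hφ
  set ra : ℝ := 1 - (1 / 2 : ℝ) ^ k with hra
  set rz : ℝ := 1 - (1 / 2 : ℝ) ^ m with hrz
  have hp : (2:ℝ) ^ m = 2 ^ (m - k) * 2 ^ k := by rw [← pow_add]; congr 1; omega
  have hφe : φ = 2 * Real.pi * ((j : ℝ) - i * 2 ^ (m - k)) / 2 ^ m := by
    rw [hφ, hp]
    field_simp
  have h1' : (i : ℝ) * 2 ^ (m - k) ≤ j := by exact_mod_cast h1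
  have h2' : (j : ℝ) ≤ (i + 1) * 2 ^ (m - k) := by exact_mod_cast h2.le
  have hφ0 : 0 ≤ φ := by
    rw [hφe]
    have : 0 ≤ (j : ℝ) - i * 2 ^ (m - k) := by linarith
    positivity
  have hφ1 : φ ≤ 2 * Real.pi * (1 / 2 : ℝ) ^ k := by
    rw [hφe, div_le_iff₀ (by positivity), hp]
    have e : 2 * Real.pi * (1 / 2 : ℝ) ^ k * (2 ^ (m - k) * 2 ^ k) = 2 * Real.pi * 2 ^ (m - k) := by
      rw [one_div, inv_pow]
      field_simp
    rw [e]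
    have : (j : ℝ) - i * 2 ^ (m - k) ≤ 2 ^ (m - k) := by linarith
    have hpi := Real.pi_pos
    gcongr
  have hm' : (1 / 2 : ℝ) ^ m ≤ (1 / 2 : ℝ) ^ k := pow_le_pow_of_le_one (by norm_num) (by norm_num) hkm
  have hk1 : (1 / 2 : ℝ) ^ k ≤ 1 := pow_le_one₀ (by norm_num) (by norm_num)
  have hk0 : 0 < (1 / 2 : ℝ) ^ k := by positivity
  have hm0 : 0 < (1 / 2 : ℝ) ^ m := by positivity
  have e1 : (starRingEnd ℂ) (pt k i) * pt m j = ((ra * rz : ℝ) : ℂ) * Complex.exp (Complex.I * φ) := by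
    unfold pt
    rw [map_mul, Complex.conj_ofReal, ← Complex.exp_conj, map_mul, Complex.conj_ofReal, Complex.conj_I]
    have e2 : Complex.exp (Complex.I * φ) = Complex.exp (((2 * Real.pi * i / 2 ^ k : ℝ) : ℂ) * -Complex.I) *
        Complex.exp (((2 * Real.pi * j / 2 ^ m : ℝ) : ℂ) * Complex.I) := by
      rw [← Complex.exp_add]
      congr 1
      rw [hφ]
      push_cast
      ring
    rw [e2]
    rw [hra, hrz]
    push_cast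
    ring
  have e3 : 1 - (starRingEnd ℂ) (pt k i) * pt m j = ((1 - ra * rz : ℝ) : ℂ) - ((ra * rz : ℝ) : ℂ) * (Complex.exp (Complex.I * φ) - 1) := by
    rw [e1]
    push_cast
    ring
  rw [e3]
  refine (norm_sub_le _ _).trans ?_
  rw [norm_mul, Complex.norm_real, Complex.norm_real]
  have hra0 : 0 ≤ ra := by rw [hra]; linarith
  have hrz0 : 0 ≤ rz := by rw [hrz]; linarith
  have hra1 : ra ≤ 1 := by rw [hra]; linarith
  have hrz1 : rz ≤ 1 := by rw [hrz]; linarith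
  have h01 : 0 ≤ 1 - ra * rz := by nlinarith
  rw [Real.norm_of_nonneg h01, Real.norm_of_nonneg (mul_nonneg hra0 hrz0)]
  have h3 : ‖Complex.exp (Complex.I * φ) - 1‖ ≤ φ := by
    have := Real.norm_exp_I_mul_ofReal_sub_one_le (x := φ)
    rwa [Real.norm_of_nonneg hφ0] at this
  have h4 : 1 - ra * rz ≤ 2 * (1 / 2 : ℝ) ^ k := by
    rw [hra, hrz]
    nlinarith
  have h5 : ra * rz * ‖Complex.exp (Complex.I * φ) - 1‖ ≤ 1 * φ := by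
    apply mul_le_mul _ h3 (norm_nonneg _) zero_le_one
    nlinarith
  have hpi := Real.pi_lt_four
  nlinarith

/-- two-sided bound for `1 - ‖bm‖²` -/
theorem bm_bounds {k m i j : ℕ} (hkm : k ≤ m) (hj : j / 2 ^ (m - k) = i) (hk : ‖pt k i‖ < 1) (hm : ‖pt m j‖ < 1)
    (hk1 : (1 / 2 : ℝ) ^ k ≤ 1 - ‖pt k i‖ ^ 2) (hk2 : 1 - ‖pt k i‖ ^ 2 ≤ 2 * (1 / 2 : ℝ) ^ k)
    (hm1 : (1 / 2 : ℝ) ^ m ≤ 1 - ‖pt m j‖ ^ 2) (hm2 : 1 - ‖pt m j‖ ^ 2 ≤ 2 * (1 / 2 : ℝ) ^ m) :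
    (1 / 2 : ℝ) ^ (m - k) / 100 ≤ 1 - ‖bm (pt k i) (pt m j)‖ ^ 2 ∧
      1 - ‖bm (pt k i) (pt m j)‖ ^ 2 ≤ 4 * (1 / 2 : ℝ) ^ (m - k) := by
  rw [bm_sq hk hm]
  have hn := near hkm hj
  have hlow : (1 / 2 : ℝ) ^ k ≤ ‖1 - (starRingEnd ℂ) (pt k i) * pt m j‖ := by
    have h1 : ‖(starRingEnd ℂ) (pt k i) * pt m j‖ ≤ 1 - (1 / 2 : ℝ) ^ k := by
      rw [norm_mul, RCLike.norm_conj, pt_norm k i] at *
      nlinarith [norm_nonneg (pt m j), pow_le_one₀ (n := k) (show (0:ℝ) ≤ 1/2 by norm_num) (by norm_num)]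
    have h2 := norm_sub_norm_le (1:ℂ) ((starRingEnd ℂ) (pt k i) * pt m j)
    rw [norm_one] at h2
    linarith
  have hk0 : 0 < (1 / 2 : ℝ) ^ k := by positivity
  have hm0 : 0 < (1 / 2 : ℝ) ^ m := by positivity
  have hmk0 : 0 < (1 / 2 : ℝ) ^ (m - k) := by positivity
  have hp : (1/2:ℝ) ^ m = (1/2) ^ (m - k) * (1/2) ^ k := by rw [← pow_add]; congr 1; omega
  set D := ‖1 - (starRingEnd ℂ) (pt k i) * pt m j‖ with hD
  have hD0 : 0 < D := hk0.trans_le hlow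
  constructor
  · rw [div_le_div_iff₀ (by norm_num) (by positivity)]
    have h1 : D ^ 2 ≤ (10 * (1 / 2 : ℝ) ^ k) ^ 2 := by gcongr
    have h2 : (1 / 2 : ℝ) ^ k * (1 / 2 : ℝ) ^ m ≤ (1 - ‖pt k i‖ ^ 2) * (1 - ‖pt m j‖ ^ 2) := by
      apply mul_le_mul hk1 hm1 hm0.le (hk0.le.trans hk1)
    calc (1 / 2 : ℝ) ^ (m - k) * D ^ 2 ≤ (1 / 2 : ℝ) ^ (m - k) * (10 * (1 / 2 : ℝ) ^ k) ^ 2 := by gcongr
      _ = (1 / 2 : ℝ) ^ k * (1 / 2 : ℝ) ^ m * 100 := by rw [hp]; ring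
      _ ≤ _ := by gcongr
  · rw [div_le_iff₀ (by positivity)]
    have h1 : ((1 / 2 : ℝ) ^ k) ^ 2 ≤ D ^ 2 := by gcongr
    have h2 : (1 - ‖pt k i‖ ^ 2) * (1 - ‖pt m j‖ ^ 2) ≤ (2 * (1 / 2 : ℝ) ^ k) * (2 * (1 / 2 : ℝ) ^ m) := by
      apply mul_le_mul hk2 hm2 (hm0.le.trans hm1) (by positivity)
    calc (1 - ‖pt k i‖ ^ 2) * (1 - ‖pt m j‖ ^ 2) ≤ (2 * (1 / 2 : ℝ) ^ k) * (2 * (1 / 2 : ℝ) ^ m) := h2
      _ = 4 * (1 / 2 : ℝ) ^ (m - k) * ((1 / 2 : ℝ) ^ k) ^ 2 := by rw [hp]; ring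
      _ ≤ _ := by gcongr

/-- the number of leaves below a vertex -/
theorem card_le {k m i : ℕ} (hkm : k ≤ m) (s : Finset ℕ) (hs : ∀ j ∈ s, j / 2 ^ (m - k) = i) :
    (s.card : ℝ) ≤ 2 ^ (m - k) := by
  have h1 : s ⊆ Finset.Ico (i * 2 ^ (m - k)) ((i + 1) * 2 ^ (m - k)) := by
    intro j hj
    rw [Finset.mem_Ico]
    exact div_bounds hkm (hs j hj)
  have h2 := Finset.card_le_card h1
  rw [Nat.card_Ico, add_mul, one_mul, Nat.add_sub_cancel_left] at h2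
  exact_mod_cast h2

end V5helper21.SZ
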